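import Pool.Agent.K1H48.SC.Defs

set_option linter.unusedSimpArgs false
set_option linter.unusedVariables false

namespace K1H48.SC

open Matrix

/-- entries `0` on the diagonal, `±1` off it -/
def Ent {n : ℕ} (C : Matrix (Fin n) (Fin n) ℝ) : Prop :=
  (∀ i, C i i = 0) ∧ ∀ i j, i ≠ j → C i j = 1 ∨ C i j = -1

/-- `C` has a `±1` eigenvector with eigenvalue `-7` -/
def Eig {n : ℕ} (C : Matrix (Fin n) (Fin n) ℝ) : Prop :=
  ∃ u : Fin n → ℤ, (∀ i, u i = 1 ∨ u i = -1) ∧ ∀ i, ∑ j, C i j * (u j : ℝ) = -7 * (u i : ℝ)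

theorem SMove.ent {n : ℕ} {C C' : Matrix (Fin n) (Fin n) ℝ} (h : SMove C C') (hC : Ent C) :
    Ent C' := by
  cases h with
  | switch i =>
    refine ⟨fun a => ?_, fun a b hab => ?_⟩
    · simp [hC.1 a]
    · simp only [Matrix.of_apply]
      rcases hC.2 a b hab with h | h <;> rw [h] <;> split_ifs <;> simp
  | perm σ =>
    refine ⟨fun a => ?_, fun a b hab => ?_⟩
    · simpa using hC.1 (σ a)
    · simpa using hC.2 (σ a) (σ b) (fun h => hab (σ.injective h))

theorem SMove.eig {n : ℕ} {C C' : Matrix (Fin n) (Fin n) ℝ} (h : SMove C C') (hC : Eig C') :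
    Eig C := by
  cases h with
  | switch i =>
    obtain ⟨u, hu, hE⟩ := hC
    refine ⟨fun a => (if a = i then -1 else 1) * u a, fun a => ?_, fun a => ?_⟩
    · rcases hu a with h | h <;> simp only [h] <;> split_ifs <;> simp
    · show ∑ b, C a b * (((if b = i then -1 else 1) * u b : ℤ) : ℝ)
        = -7 * (((if a = i then -1 else 1) * u a : ℤ) : ℝ)
      have h1 := hE a
      simp only [Matrix.of_apply] at h1
      have h2 : ∀ b, C a b * (((if b = i then -1 else 1) * u b : ℤ) : ℝ)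
          = (if a = i then -1 else 1) *
            (((if a = i then -1 else 1) * (if b = i then -1 else 1) * C a b) * (u b : ℝ)) := by
        intro b
        split_ifs <;> push_cast <;> ring
      rw [Finset.sum_congr rfl (fun b _ => h2 b), ← Finset.mul_sum, h1]
      split_ifs <;> push_cast <;> ring
  | perm σ =>
    obtain ⟨u, hu, hE⟩ := hC
    refine ⟨fun a => u (σ.symm a), fun a => hu _, fun a => ?_⟩
    have h1 := hE (σ.symm a)
    simp only [Matrix.submatrix_apply, Equiv.apply_symm_apply] at h1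
    rw [← h1]
    rw [← Equiv.sum_comp σ]
    simp

theorem SEquiv.ent {n : ℕ} {C C' : Matrix (Fin n) (Fin n) ℝ} (h : SEquiv C C') (hC : Ent C) :
    Ent C' := by
  induction h with
  | refl => exact hC
  | tail _ h ih => exact h.ent ih

theorem SEquiv.eig {n : ℕ} {C C' : Matrix (Fin n) (Fin n) ℝ} (h : SEquiv C C') (hC : Eig C') :
    Eig C := by
  induction h with
  | refl => exact hC
  | tail _ h ih => exact ih (h.eig hC)

theorem inv_mulVec {m : ℕ} (M : Matrix (Fin m) (Fin m) ℝ) (hM : IsUnit M.det) (c : ℝ)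
    (hc : c ≠ 0) (h : M *ᵥ (fun _ => (1 : ℝ)) = fun _ => c) :
    M⁻¹ *ᵥ (fun _ => (1 : ℝ)) = fun _ => c⁻¹ := by
  have h1 : M⁻¹ *ᵥ (M *ᵥ (fun _ => (1 : ℝ))) = fun _ => 1 := by
    rw [Matrix.mulVec_mulVec, Matrix.nonsing_inv_mul _ hM, Matrix.one_mulVec]
  rw [h] at h1
  have h2 : (fun _ : Fin m => c) = c • (fun _ => (1 : ℝ)) := by
    ext i; simp
  rw [h2, Matrix.mulVec_smul] at h1
  ext i
  have h3 := congrFun h1 i
  simp only [Pi.smul_apply, smul_eq_mul] at h3
  field_simp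
  linarith

theorem isUnit_det {m : ℕ} (N : Matrix (Fin m) (Fin m) ℝ) : IsUnit (1 + N * Nᵀ).det := by
  have h1 : (1 : Matrix (Fin m) (Fin m) ℝ).PosDef := Matrix.PosDef.one
  have h2 : (N * Nᵀ).PosSemidef := by
    have := Matrix.posSemidef_self_mul_conjTranspose N
    rwa [Matrix.conjTranspose_eq_transpose_of_trivial] at this
  have h3 := h1.add_posSemidef h2
  exact (Matrix.isUnit_iff_isUnit_det _).mp h3.isUnit

/-- block sums of `𝓑(N)` -/
theorem calB_sums {m : ℕ} (N : Matrix (Fin m) (Fin m) ℝ) (k : ℝ)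
    (hr : ∀ i, ∑ j, N i j = k) (hc : ∀ j, ∑ i, N i j = k) (s : ℝ)
    (hs : Real.sqrt (((m + m : ℕ) : ℝ) - 1) = s) :
    (∀ i : Fin m, ∑ j : Fin m, calB N (Fin.castAdd m i) (Fin.castAdd m j)
        = s * (1 - k ^ 2) / (1 + k ^ 2)) ∧
    (∀ i : Fin m, ∑ j : Fin m, calB N (Fin.castAdd m i) (Fin.natAdd m j)
        = -(s * (2 * k) / (1 + k ^ 2))) ∧
    (∀ i : Fin m, ∑ j : Fin m, calB N (Fin.natAdd m i) (Fin.castAdd m j)
        = -(s * (2 * k) / (1 + k ^ 2))) ∧
    (∀ i : Fin m, ∑ j : Fin m, calB N (Fin.natAdd m i) (Fin.natAdd m j)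
        = -(s * (1 - k ^ 2) / (1 + k ^ 2))) := by
  have hpos : (0 : ℝ) < 1 + k ^ 2 := by positivity
  have hNv : N *ᵥ (fun _ => (1 : ℝ)) = fun _ => k := by
    ext i; simp [Matrix.mulVec, dotProduct, hr]
  have hNtv : Nᵀ *ᵥ (fun _ => (1 : ℝ)) = fun _ => k := by
    ext i; simp [Matrix.mulVec, dotProduct, hc]
  have hk : (fun _ : Fin m => k) = k • (fun _ => (1 : ℝ)) := by ext i; simp
  have hX : (1 + N * Nᵀ)⁻¹ *ᵥ (fun _ => (1 : ℝ)) = fun _ => (1 + k ^ 2)⁻¹ := by
    apply inv_mulVec _ (isUnit_det N) _ hpos.ne'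
    rw [Matrix.add_mulVec, Matrix.one_mulVec, ← Matrix.mulVec_mulVec, hNtv, hk,
      Matrix.mulVec_smul, hNv]
    ext i; simp; ring
  have hY : (1 + Nᵀ * N)⁻¹ *ᵥ (fun _ => (1 : ℝ)) = fun _ => (1 + k ^ 2)⁻¹ := by
    have hu := isUnit_det Nᵀ
    rw [Matrix.transpose_transpose] at hu
    apply inv_mulVec _ hu _ hpos.ne'
    rw [Matrix.add_mulVec, Matrix.one_mulVec, ← Matrix.mulVec_mulVec, hNv, hk,
      Matrix.mulVec_smul, hNtv]
    ext i; simp; ring
  have hc' : (fun _ : Fin m => (1 + k ^ 2)⁻¹) = (1 + k ^ 2)⁻¹ • (fun _ => (1 : ℝ)) := by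
    ext i; simp
  have hsum : ∀ (M : Matrix (Fin m) (Fin m) ℝ) (i : Fin m),
      ∑ j, M i j = (M *ᵥ (fun _ => (1 : ℝ))) i := by
    intro M i; simp [Matrix.mulVec, dotProduct]
  refine ⟨fun i => ?_, fun i => ?_, fun i => ?_, fun i => ?_⟩
  · have : ∀ j : Fin m, calB N (Fin.castAdd m i) (Fin.castAdd m j)
        = (s • ((2 : ℝ) • (1 + N * Nᵀ)⁻¹ - 1)) i j := by
      intro j
      rw [calB, hs]
      simp only [Matrix.reindex_apply, Matrix.submatrix_apply,
        finSumFinEquiv_symm_apply_castAdd, finSumFinEquiv_symm_apply_natAdd, Matrix.smul_apply,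
        Matrix.fromBlocks_apply₁₁, Matrix.fromBlocks_apply₁₂, Matrix.fromBlocks_apply₂₁,
        Matrix.fromBlocks_apply₂₂]
    rw [Finset.sum_congr rfl (fun j _ => this j), hsum, Matrix.smul_mulVec, Matrix.sub_mulVec,
      Matrix.smul_mulVec, hX, Matrix.one_mulVec]
    simp only [Pi.smul_apply, Pi.sub_apply, smul_eq_mul]
    field_simp
    ring
  · have : ∀ j : Fin m, calB N (Fin.castAdd m i) (Fin.natAdd m j)
        = (s • (-((2 : ℝ) • ((1 + N * Nᵀ)⁻¹ * N)))) i j := by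
      intro j
      rw [calB, hs]
      simp only [Matrix.reindex_apply, Matrix.submatrix_apply,
        finSumFinEquiv_symm_apply_castAdd, finSumFinEquiv_symm_apply_natAdd, Matrix.smul_apply,
        Matrix.fromBlocks_apply₁₁, Matrix.fromBlocks_apply₁₂, Matrix.fromBlocks_apply₂₁,
        Matrix.fromBlocks_apply₂₂]
    rw [Finset.sum_congr rfl (fun j _ => this j), hsum, Matrix.smul_mulVec, Matrix.neg_mulVec,
      Matrix.smul_mulVec, ← Matrix.mulVec_mulVec, hNv, hk, Matrix.mulVec_smul, hX]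
    simp only [Pi.smul_apply, Pi.neg_apply, smul_eq_mul]
    field_simp
  · have : ∀ j : Fin m, calB N (Fin.natAdd m i) (Fin.castAdd m j)
        = (s • (-((2 : ℝ) • ((1 + Nᵀ * N)⁻¹ * Nᵀ)))) i j := by
      intro j
      rw [calB, hs]
      simp only [Matrix.reindex_apply, Matrix.submatrix_apply,
        finSumFinEquiv_symm_apply_castAdd, finSumFinEquiv_symm_apply_natAdd, Matrix.smul_apply,
        Matrix.fromBlocks_apply₁₁, Matrix.fromBlocks_apply₁₂, Matrix.fromBlocks_apply₂₁,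
        Matrix.fromBlocks_apply₂₂]
    rw [Finset.sum_congr rfl (fun j _ => this j), hsum, Matrix.smul_mulVec, Matrix.neg_mulVec,
      Matrix.smul_mulVec, ← Matrix.mulVec_mulVec, hNtv, hk, Matrix.mulVec_smul, hY]
    simp only [Pi.smul_apply, Pi.neg_apply, smul_eq_mul]
    field_simp
  · have : ∀ j : Fin m, calB N (Fin.natAdd m i) (Fin.natAdd m j)
        = (s • (1 - (2 : ℝ) • (1 + Nᵀ * N)⁻¹)) i j := by
      intro j
      rw [calB, hs]
      simp only [Matrix.reindex_apply, Matrix.submatrix_apply,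
        finSumFinEquiv_symm_apply_castAdd, finSumFinEquiv_symm_apply_natAdd, Matrix.smul_apply,
        Matrix.fromBlocks_apply₁₁, Matrix.fromBlocks_apply₁₂, Matrix.fromBlocks_apply₂₁,
        Matrix.fromBlocks_apply₂₂]
    rw [Finset.sum_congr rfl (fun j _ => this j), hsum, Matrix.smul_mulVec, Matrix.sub_mulVec,
      Matrix.smul_mulVec, hY, Matrix.one_mulVec]
    simp only [Pi.smul_apply, Pi.sub_apply, smul_eq_mul]
    field_simp
    ring

theorem intEnt {n : ℕ} {C : Matrix (Fin n) (Fin n) ℝ} (hC : Ent C) :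
    ∃ c : Fin n → Fin n → ℤ, (∀ i j, C i j = (c i j : ℝ)) ∧ (∀ i, c i i = 0) ∧
      ∀ i j, i ≠ j → c i j = 1 ∨ c i j = -1 := by
  classical
  have h : ∀ i j, ∃ z : ℤ, C i j = (z : ℝ) ∧ (i = j → z = 0) ∧ (i ≠ j → z = 1 ∨ z = -1) := by
    intro i j
    by_cases hij : i = j
    · subst hij
      exact ⟨0, by simp [hC.1 i], fun _ => rfl, fun h => absurd rfl h⟩
    · rcases hC.2 i j hij with h | h
      · exact ⟨1, by simp [h], fun h' => absurd h' hij, fun _ => Or.inl rfl⟩
      · exact ⟨-1, by simp [h], fun h' => absurd h' hij, fun _ => Or.inr rfl⟩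
  choose c h1 h2 h3 using h
  exact ⟨c, h1, fun i => h2 i i rfl, h3⟩

/-- The key observation: in order `50`, property (R) forces a `±1` eigenvector of eigenvalue
`-7`. -/
theorem propR_eig {C : Matrix (Fin (25 + 25)) (Fin (25 + 25)) ℝ} (hC : Ent C) (h : PropR C) :
    Eig C := by
  obtain ⟨N, k, hr, hc, rfl⟩ := h
  have hs : Real.sqrt (((25 + 25 : ℕ) : ℝ) - 1) = 7 := by
    rw [show (((25 + 25 : ℕ) : ℝ) - 1) = 7 ^ 2 by norm_num]
    exact Real.sqrt_sq (by norm_num)
  obtain ⟨s1, s2, s3, s4⟩ := calB_sums N k hr hc 7 hs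
  have hpos : (0 : ℝ) < 1 + k ^ 2 := by positivity
  set a : ℝ := 7 * (1 - k ^ 2) / (1 + k ^ 2) with ha
  set b : ℝ := -(7 * (2 * k) / (1 + k ^ 2)) with hb
  have hab : a ^ 2 + b ^ 2 = 49 := by
    rw [ha, hb]; field_simp; ring
  obtain ⟨c, c1, c2, c3⟩ := intEnt hC
  -- integer versions
  obtain ⟨A, hA⟩ : ∃ A : ℤ, A = ∑ j : Fin 25, c (Fin.castAdd 25 0) (Fin.castAdd 25 j) := ⟨_, rfl⟩
  obtain ⟨B, hB⟩ : ∃ B : ℤ, B = ∑ j : Fin 25, c (Fin.castAdd 25 0) (Fin.natAdd 25 j) := ⟨_, rfl⟩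
  have hA' : a = (A : ℝ) := by
    rw [← s1 0, hA]; push_cast
    exact Finset.sum_congr rfl fun j _ => c1 _ _
  have hB' : b = (B : ℝ) := by
    rw [← s2 0, hB]; push_cast
    exact Finset.sum_congr rfl fun j _ => c1 _ _
  have hAB : A ^ 2 + B ^ 2 = 49 := by
    have : ((A ^ 2 + B ^ 2 : ℤ) : ℝ) = ((49 : ℤ) : ℝ) := by
      push_cast; rw [← hA', ← hB', hab]
    exact_mod_cast this
  have hev : A % 2 = 0 := by
    have h0 : ∀ j : Fin 25, j ≠ 0 →
        (c (Fin.castAdd 25 0) (Fin.castAdd 25 j)) % 2 = 1 := by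
      intro j hj
      have : Fin.castAdd 25 (0 : Fin 25) ≠ Fin.castAdd 25 j := by
        intro h; exact hj (Fin.castAdd_injective _ _ h).symm
      rcases c3 _ _ this with h | h <;> rw [h] <;> norm_num
    have h1 : A = ∑ j : Fin 24, c (Fin.castAdd 25 0) (Fin.castAdd 25 j.succ) := by
      rw [hA, Fin.sum_univ_succ, c2, zero_add]
    rw [h1, Finset.sum_int_mod]
    rw [Finset.sum_congr rfl (fun j _ => h0 j.succ (Fin.succ_ne_zero j))]
    simp
  have hA0 : A = 0 := by
    have h1 : A ≤ 7 := by nlinarith [sq_nonneg B]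
    have h2 : -7 ≤ A := by nlinarith [sq_nonneg B]
    have h3 : B ≤ 7 := by nlinarith [sq_nonneg A]
    have h4 : -7 ≤ B := by nlinarith [sq_nonneg A]
    interval_cases A <;> first | rfl | omega | (exfalso; interval_cases B <;> omega)
  have hB7 : B = 7 ∨ B = -7 := by
    rw [hA0] at hAB
    have : (B - 7) * (B + 7) = 0 := by linarith [hAB, sq B]
    rcases mul_eq_zero.mp this with h | h
    · left; linarith
    · right; linarith
  have ha0 : a = 0 := by rw [hA', hA0]; simp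
  rw [ha0] at s1 s4
  rcases hB7 with h7 | h7
  · have hb7 : b = 7 := by rw [hB', h7]; norm_num
    rw [hb7] at s2 s3
    refine ⟨Fin.addCases (fun _ => 1) (fun _ => -1), fun i => ?_, fun i => ?_⟩
    · refine Fin.addCases (fun i => ?_) (fun i => ?_) i
      · left; simp only [Fin.addCases_left]
      · right; simp only [Fin.addCases_right]
    · rw [Fin.sum_univ_add]
      refine Fin.addCases (fun i => ?_) (fun i => ?_) i
      · simp only [Fin.addCases_left, Fin.addCases_right, Int.cast_one, Int.cast_neg, mul_one,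
          mul_neg, Finset.sum_neg_distrib]
        rw [s1, s2]; norm_num
      · simp only [Fin.addCases_left, Fin.addCases_right, Int.cast_one, Int.cast_neg, mul_one,
          mul_neg, Finset.sum_neg_distrib]
        rw [s3, s4]; norm_num
  · have hb7 : b = -7 := by rw [hB', h7]; norm_num
    rw [hb7] at s2 s3
    refine ⟨fun _ => 1, fun i => Or.inl rfl, fun i => ?_⟩
    rw [Fin.sum_univ_add]
    refine Fin.addCases (fun i => ?_) (fun i => ?_) i
    · simp only [Int.cast_one, mul_one]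
      rw [s1, s2]; norm_num
    · simp only [Int.cast_one, mul_one]
      rw [s3, s4]; norm_num

end K1H48.SC
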