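import Pool.Agent.K1H48.SC.Data

set_option maxRecDepth 100000

namespace K1H48.SC

def chkSymm : Bool := allB (fun i => allB (fun j => decide (cE i j = cE j i)) 50) 50

def chkOrth : Bool := allB (fun i => allB (fun j =>
  decide (sumB (fun k => Int.mul (cE i k) (cE j k)) 50 = bif Nat.beq i j then 49 else 0)) 50) 50

def chkT : Bool := allB (fun i => allB (fun t =>
  decide (sumB (fun j => Int.mul (rE i j) (aE j t)) 50 = tE i t)) 50) 25

def chkBT : Bool := allB (fun s => allB (fun t =>
  decide (sumB (fun i => Int.mul (bE i s) (tE i t)) 25 = aE s t)) 50) 50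

def chkG : Bool := allB (fun i => allB (fun j =>
  decide (sumB (fun k => Int.mul (lv k).e (Int.mul (lamE k i) (lamE k j))) 25 =
    Int.mul DD (sumB (fun t => Int.mul (bE i t) (bE j t)) 50))) 25) 25

def chkPar : Bool := allB (fun i => decide (Int.emod (Int.sub (sumB (fun j => rE i j) 50) (lv i).r) 2 = 0)) 25

def chkLv : Bool := allB (fun k => decide (0 < (lv k).d) && (decide (0 < (lv k).e) &&
  (decide (50 * DD < 16 * ((lv k).e * ((lv k).d * (lv k).d))) &&
    Nat.beq ((lv k).lam.length) (24 - k)))) 25

theorem levels_eq : levels = (List.range 25).reverse.map lv := by rfl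

theorem chkSymm_true : chkSymm = true := by decide +kernel

theorem chkPar_true : chkPar = true := by decide +kernel

theorem chkLv_true : chkLv = true := by decide +kernel

theorem chkOrth_true : chkOrth = true := by decide +kernel

theorem chkT_true : chkT = true := by decide +kernel

theorem chkBT_true : chkBT = true := by decide +kernel

theorem chkG_true : chkG = true := by decide +kernel

theorem enum_true : enum levels [] (50 * DD) = true := by decide +kernel

end K1H48.SC
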