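import Mathlib

/-! Definitions: symmetric conference matrices, Seidel equivalence, Belevitch's form `𝓑(N)` and
property (R). -/

namespace K1H48.SC

open Matrix

/-- `C` is a symmetric conference matrix of order `n`. -/
structure IsSymConf {n : ℕ} (C : Matrix (Fin n) (Fin n) ℝ) : Prop where
  diag : ∀ i, C i i = 0
  off : ∀ i j, i ≠ j → C i j = 1 ∨ C i j = -1
  symm : Cᵀ = C
  orth : C * Cᵀ = ((n : ℝ) - 1) • (1 : Matrix (Fin n) (Fin n) ℝ)

/-- One Seidel move: change the sign of row `i` and column `i`, or apply one permutation to rows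
and columns. -/
inductive SMove {n : ℕ} (C : Matrix (Fin n) (Fin n) ℝ) : Matrix (Fin n) (Fin n) ℝ → Prop
  | switch (i : Fin n) : SMove C
      (Matrix.of fun a b => (if a = i then -1 else 1) * (if b = i then -1 else 1) * C a b)
  | perm (σ : Equiv.Perm (Fin n)) : SMove C (C.submatrix σ σ)

/-- Seidel equivalence: a finite sequence of moves. -/
def SEquiv {n : ℕ} : Matrix (Fin n) (Fin n) ℝ → Matrix (Fin n) (Fin n) ℝ → Prop :=
  Relation.ReflTransGen SMove

/-- Belevitch's matrix `𝓑(N)`, of order `n = m + m`. -/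
noncomputable def calB {m : ℕ} (N : Matrix (Fin m) (Fin m) ℝ) :
    Matrix (Fin (m + m)) (Fin (m + m)) ℝ :=
  Matrix.reindex finSumFinEquiv finSumFinEquiv
    (Real.sqrt (((m + m : ℕ) : ℝ) - 1) • Matrix.fromBlocks
      ((2 : ℝ) • (1 + N * Nᵀ)⁻¹ - 1) (-((2 : ℝ) • ((1 + N * Nᵀ)⁻¹ * N)))
      (-((2 : ℝ) • ((1 + Nᵀ * N)⁻¹ * Nᵀ))) (1 - (2 : ℝ) • (1 + Nᵀ * N)⁻¹))

/-- Property (R): `C = 𝓑(N)` with all row sums and all column sums of `N` equal. -/
def PropR {m : ℕ} (C : Matrix (Fin (m + m)) (Fin (m + m)) ℝ) : Prop :=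
  ∃ (N : Matrix (Fin m) (Fin m) ℝ) (k : ℝ), (∀ i, ∑ j, N i j = k) ∧ (∀ j, ∑ i, N i j = k) ∧
    C = calB N

end K1H48.SC
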