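import Mathlib

set_option linter.unusedSimpArgs false
set_option linter.unusedVariables false

namespace K1H48.SC

/-- one level of the lattice enumeration: weight `e`, pivot `d`, parity `r`, and the coefficients
`lam` of the variables already chosen (next index first). -/
structure Lv where
  e : ℤ
  d : ℤ
  r : ℤ
  lam : List ℤ

/-- dot product of lists -/
def dot : List ℤ → List ℤ → ℤ
  | a :: l, b :: m => a * b + dot l m
  | _, _ => 0

/-- sign test -/
def isNeg : ℤ → Bool
  | Int.ofNat _ => false
  | Int.negSucc _ => true

/-- the enumeration: returns `true` when no completion of the partial assignment `s` has remaining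
weighted sum of squares at most `R`. -/
def enum : List Lv → List ℤ → ℤ → Bool
  | [], _, R => isNeg R
  | l :: L, s, R =>
    let c := dot l.lam s
    let q := (-c) / l.d
    let t := q - 3 + (q - 3 - l.r) % 2
    let f := fun y : ℤ =>
      let R' := R - l.e * ((l.d * y + c) * (l.d * y + c))
      isNeg R' || enum L (y :: s) R'
    f t && (f (t + 2) && (f (t + 4) && f (t + 6)))

/-- the weighted sum of squares of a completion -/
def total : List Lv → List ℤ → List ℤ → ℤ
  | l :: L, s, y :: ys => l.e * ((l.d * y + dot l.lam s) * (l.d * y + dot l.lam s)) +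
      total L (y :: s) ys
  | _, _, _ => 0

theorem isNeg_iff (z : ℤ) : isNeg z = true ↔ z < 0 := by
  cases z with
  | ofNat n => simp [isNeg]
  | negSucc n => simp [isNeg, Int.negSucc_lt_zero]

theorem total_nonneg : ∀ (L : List Lv) (s ys : List ℤ), (∀ l ∈ L, 0 < l.e) → 0 ≤ total L s ys
  | [], _, _, _ => by simp [total]
  | l :: L, s, [], _ => by simp [total]
  | l :: L, s, y :: ys, h => by
    have h1 := total_nonneg L (y :: s) ys (fun l' hl' => h l' (List.mem_cons_of_mem _ hl'))
    have h2 := h l List.mem_cons_self
    have h3 : 0 ≤ l.e * ((l.d * y + dot l.lam s) * (l.d * y + dot l.lam s)) :=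
      mul_nonneg h2.le (mul_self_nonneg _)
    simp only [total]
    linarith

theorem enum_sound : ∀ (L : List Lv) (s : List ℤ) (R : ℤ),
    (∀ l ∈ L, 0 < l.d ∧ 0 < l.e ∧ R < 16 * (l.e * (l.d * l.d))) → enum L s R = true →
    ∀ ys : List ℤ, List.Forall₂ (fun l y => (y - l.r) % 2 = 0) L ys → R < total L s ys
  | [], s, R, _, h, ys, hys => by
    cases hys
    simp only [enum, isNeg_iff] at h
    simpa [total] using h
  | l :: L, s, R, hL, h, ys, hys => by
    cases hys with
    | @cons _ y _ ys' hy hys' =>
      obtain ⟨hd, he, hR⟩ := hL l List.mem_cons_self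
      have hLe : ∀ l' ∈ L, 0 < l'.e := fun l' hl' => (hL l' (List.mem_cons_of_mem _ hl')).2.1
      have htn := total_nonneg L (y :: s) ys' hLe
      simp only [total]
      simp only [enum, Bool.and_eq_true, Bool.or_eq_true, isNeg_iff] at h
      set c := dot l.lam s with hc
      set q := (-c) / l.d with hq
      set t := q - 3 + (q - 3 - l.r) % 2 with ht
      have hq1 : l.d * q ≤ -c := by
        have := Int.mul_ediv_self_le (x := -c) (k := l.d) hd.ne'
        rw [← hq] at this; linarith
      have hq2 : -c < l.d * (q + 1) := by
        have := Int.lt_mul_ediv_self_add (x := -c) (k := l.d) hd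
        rw [← hq] at this; linarith
      -- candidates
      have key : ∀ y' : ℤ, y' = y → ((R - l.e * ((l.d * y' + c) * (l.d * y' + c)) < 0) ∨
          enum L (y' :: s) (R - l.e * ((l.d * y' + c) * (l.d * y' + c))) = true) →
          R < l.e * ((l.d * y + c) * (l.d * y + c)) + total L (y :: s) ys' := by
        intro y' hy' h'
        subst hy'
        rcases h' with h' | h'
        · linarith
        · have hsq : 0 ≤ l.e * ((l.d * y' + c) * (l.d * y' + c)) :=
            mul_nonneg he.le (mul_self_nonneg _)
          have := enum_sound L (y' :: s) _ (fun l' hl' => by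
            obtain ⟨h1, h2, h3⟩ := hL l' (List.mem_cons_of_mem _ hl')
            exact ⟨h1, h2, by linarith⟩) h' ys' hys'
          linarith
      by_cases hlo : y ≤ q - 4
      · -- too small
        have h1 : l.d * y + c ≤ -(4 * l.d) := by
          have : l.d * y ≤ l.d * (q - 4) := mul_le_mul_of_nonneg_left hlo hd.le
          nlinarith
        have h2 : 16 * (l.d * l.d) ≤ (l.d * y + c) * (l.d * y + c) := by nlinarith
        have h3 : l.e * (16 * (l.d * l.d)) ≤ l.e * ((l.d * y + c) * (l.d * y + c)) :=
          mul_le_mul_of_nonneg_left h2 he.le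
        linarith
      · by_cases hhi : q + 5 ≤ y
        · have h1 : 4 * l.d ≤ l.d * y + c := by
            have : l.d * (q + 5) ≤ l.d * y := mul_le_mul_of_nonneg_left hhi hd.le
            nlinarith
          have h2 : 16 * (l.d * l.d) ≤ (l.d * y + c) * (l.d * y + c) := by nlinarith
          have h3 : l.e * (16 * (l.d * l.d)) ≤ l.e * ((l.d * y + c) * (l.d * y + c)) :=
            mul_le_mul_of_nonneg_left h2 he.le
          linarith
        · have hcase : t = y ∨ t + 2 = y ∨ t + 4 = y ∨ t + 6 = y := by omega
          obtain ⟨c0, c1, c2, c3⟩ := h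
          rcases hcase with h0 | h0 | h0 | h0
          · exact key t h0 c0
          · exact key (t + 2) h0 c1
          · exact key (t + 4) h0 c2
          · exact key (t + 6) h0 c3

theorem dot_map (x : ℕ → ℤ) : ∀ (n : ℕ) (l : List ℤ) (a : ℕ),
    dot l ((List.range' a n).map x) = ∑ i ∈ Finset.range n, l.getD i 0 * x (a + i)
  | 0, l, a => by cases l <;> simp [dot]
  | n + 1, [], a => by simp [dot]
  | n + 1, b :: l, a => by
    rw [List.range'_succ, List.map_cons, dot, dot_map x n l (a + 1), Finset.sum_range_succ']
    simp only [List.getD_cons_succ, List.getD_cons_zero, add_zero]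
    rw [add_comm]
    congr 1
    apply Finset.sum_congr rfl
    intro i _
    rw [show a + 1 + i = a + (i + 1) by ring]

/-- total as a sum over levels -/
theorem total_eq (K : ℕ) (lv : ℕ → Lv) (x : ℕ → ℤ) : ∀ k ≤ K,
    total ((List.range k).reverse.map lv) ((List.range' k (K - k)).map x)
      ((List.range k).reverse.map x)
    = ∑ j ∈ Finset.range k, (lv j).e *
        (((lv j).d * x j + dot (lv j).lam ((List.range' (j + 1) (K - (j + 1))).map x)) *
         ((lv j).d * x j + dot (lv j).lam ((List.range' (j + 1) (K - (j + 1))).map x)))
  | 0, _ => by simp [total]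
  | k + 1, hk => by
    rw [List.range_succ, List.reverse_append]
    simp only [List.reverse_cons, List.reverse_nil, List.nil_append, List.cons_append,
      List.map_cons, List.singleton_append]
    rw [total, Finset.sum_range_succ, add_comm]
    congr 1
    have h1 : (x k :: (List.range' (k + 1) (K - (k + 1))).map x)
        = (List.range' k (K - k)).map x := by
      have : K - k = (K - (k + 1)) + 1 := by omega
      rw [this, List.range'_succ, List.map_cons]
    rw [h1]
    exact total_eq K lv x k (by omega)

end K1H48.SC
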