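import Pool.Agent.K1H48.SC.Cert

set_option linter.unusedSimpArgs false
set_option linter.unusedVariables false

namespace K1H48.SC

open Finset

theorem bif_beq {α : Type*} (i j : ℕ) (a b : α) :
    (bif Nat.beq i j then a else b) = if i = j then a else b := by
  by_cases h : i = j
  · subst h; simp [Nat.beq_refl]
  · have : Nat.beq i j = false := by
      rw [Bool.eq_false_iff]; intro h'; exact h (Nat.eq_of_beq_eq_true h')
    simp [this, h]

theorem sym_all : ∀ i < 50, ∀ j < 50, cE i j = cE j i := by
  intro i hi j hj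
  have := (allB_iff _ _).mp chkSymm_true i hi
  simpa using (allB_iff _ _).mp this j hj

theorem orth_all : ∀ i < 50, ∀ j < 50,
    ∑ k ∈ range 50, cE i k * cE j k = if i = j then 49 else 0 := by
  intro i hi j hj
  have := (allB_iff _ _).mp ((allB_iff _ _).mp chkOrth_true i hi) j hj
  rw [decide_eq_true_iff, sumB_eq, bif_beq] at this
  exact this

theorem T_all : ∀ i < 25, ∀ t < 50, ∑ j ∈ range 50, rE i j * aE j t = tE i t := by
  intro i hi t ht
  have := (allB_iff _ _).mp ((allB_iff _ _).mp chkT_true i hi) t ht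
  rw [decide_eq_true_iff, sumB_eq] at this
  exact this

theorem BT_all : ∀ s < 50, ∀ t < 50, ∑ i ∈ range 25, bE i s * tE i t = aE s t := by
  intro i hi t ht
  have := (allB_iff _ _).mp ((allB_iff _ _).mp chkBT_true i hi) t ht
  rw [decide_eq_true_iff, sumB_eq] at this
  exact this

theorem G_all : ∀ i < 25, ∀ j < 25, ∑ k ∈ range 25, (lv k).e * (lamE k i * lamE k j) =
    DD * ∑ t ∈ range 50, bE i t * bE j t := by
  intro i hi t ht
  have := (allB_iff _ _).mp ((allB_iff _ _).mp chkG_true i hi) t ht
  rw [decide_eq_true_iff, sumB_eq, sumB_eq] at this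
  exact this

theorem par_all : ∀ i < 25, (∑ j ∈ range 50, rE i j - (lv i).r) % 2 = 0 := by
  intro i hi
  have := (allB_iff _ _).mp chkPar_true i hi
  rw [decide_eq_true_iff, sumB_eq] at this
  exact this

theorem lv_all : ∀ k < 25, 0 < (lv k).d ∧ 0 < (lv k).e ∧
    50 * DD < 16 * ((lv k).e * ((lv k).d * (lv k).d)) ∧ (lv k).lam.length = 24 - k := by
  intro k hk
  have := (allB_iff _ _).mp chkLv_true k hk
  simp only [Bool.and_eq_true, decide_eq_true_iff] at this
  exact ⟨this.1, this.2.1, this.2.2.1, Nat.eq_of_beq_eq_true this.2.2.2⟩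

theorem aE_eq (i j : ℕ) : aE i j = (if i = j then 7 else 0) - cE i j := by
  rw [aE, cE, bif_beq, bif_beq]
  by_cases h : i = j
  · simp [h]
  · simp only [h, if_false]
    cases Nat.testBit ctab (50 * i + j) <;> simp

theorem cE_diag (i : ℕ) : cE i i = 0 := by rw [cE, bif_beq]; simp

theorem cE_off (i j : ℕ) (h : i ≠ j) : cE i j = 1 ∨ cE i j = -1 := by
  rw [cE, bif_beq]
  simp only [h, if_false]
  cases Nat.testBit ctab (50 * i + j) <;> simp

/-- the linear form of level `k` -/
theorem form_eq (x : ℕ → ℤ) (k : ℕ) (hk : k < 25) :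
    (lv k).d * x k + dot (lv k).lam ((List.range' (k + 1) (25 - (k + 1))).map x)
      = ∑ i ∈ range 25, lamE k i * x i := by
  rw [dot_map]
  have h25 : (25 : ℕ) = k + (1 + (25 - (k + 1))) := by omega
  conv_rhs => rw [h25, Finset.sum_range_add, Finset.sum_range_add]
  have h0 : ∑ i ∈ range k, lamE k i * x i = 0 := by
    apply Finset.sum_eq_zero
    intro i hi
    have : Nat.blt i k = true := by
      rw [Nat.blt_eq]; exact Finset.mem_range.mp hi
    simp [lamE, this]
  rw [h0, zero_add]
  congr 1
  · rw [Finset.sum_range_one]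
    have : Nat.blt k k = false := by
      rw [Bool.eq_false_iff]; intro h; rw [Nat.blt_eq] at h; omega
    rw [Nat.add_zero, lamE, this]
    simp
  · apply Finset.sum_congr rfl
    intro i _
    have h1 : Nat.blt (k + (1 + i)) k = false := by
      rw [Bool.eq_false_iff]; intro h; rw [Nat.blt_eq] at h; omega
    have h2 : k + (1 + i) - k = i + 1 := by omega
    have h3 : k + 1 + i = k + (1 + i) := by omega
    rw [lamE, h1, h2, h3]
    simp

/-- no `±1` vector of eigenvalue `-7` -/
theorem no_pm1 (u : ℕ → ℤ) (hu : ∀ i < 50, u i = 1 ∨ u i = -1)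
    (hE : ∀ i < 50, ∑ j ∈ range 50, cE i j * u j = -7 * u i) : False := by
  -- coordinates
  obtain ⟨x, hx⟩ : ∃ x : ℕ → ℤ, ∀ i, x i = ∑ j ∈ range 50, rE i j * u j := ⟨_, fun _ => rfl⟩
  have h14 : ∀ j < 50, ∑ t ∈ range 50, aE j t * u t = 14 * u j := by
    intro j hj
    have h1 : ∀ t ∈ range 50, aE j t * u t
        = (if j = t then 7 * u t else 0) - cE j t * u t := by
      intro t _
      rw [aE_eq]; split_ifs <;> ring
    rw [Finset.sum_congr rfl h1, Finset.sum_sub_distrib, hE j hj, Finset.sum_ite_eq]
    simp only [Finset.mem_range, hj, if_true]; ring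
  have hxT : ∀ i < 25, ∑ t ∈ range 50, tE i t * u t = 14 * x i := by
    intro i hi
    have h1 : ∀ t ∈ range 50, tE i t * u t = ∑ j ∈ range 50, rE i j * (aE j t * u t) := by
      intro t ht
      rw [← T_all i hi t (Finset.mem_range.mp ht), Finset.sum_mul]
      exact Finset.sum_congr rfl fun j _ => by ring
    rw [Finset.sum_congr rfl h1, Finset.sum_comm, hx, Finset.mul_sum]
    apply Finset.sum_congr rfl
    intro j hj
    rw [← Finset.mul_sum, h14 j (Finset.mem_range.mp hj)]; ring
  have hBx : ∀ s < 50, ∑ i ∈ range 25, bE i s * x i = u s := by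
    intro s hs
    have h1 : 14 * ∑ i ∈ range 25, bE i s * x i = 14 * u s := by
      rw [← h14 s hs, Finset.mul_sum]
      have h2 : ∀ i ∈ range 25, 14 * (bE i s * x i) = ∑ t ∈ range 50, bE i s * (tE i t * u t) := by
        intro i hi
        rw [← Finset.mul_sum, hxT i (Finset.mem_range.mp hi)]; ring
      rw [Finset.sum_congr rfl h2, Finset.sum_comm]
      apply Finset.sum_congr rfl
      intro t ht
      rw [← BT_all s hs t (Finset.mem_range.mp ht), Finset.sum_mul]
      exact Finset.sum_congr rfl fun j _ => by ring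
    linarith
  have hnorm : ∑ s ∈ range 50, u s * u s = 50 := by
    have : ∀ s ∈ range 50, u s * u s = 1 := by
      intro s hs
      rcases hu s (Finset.mem_range.mp hs) with h | h <;> rw [h] <;> norm_num
    rw [Finset.sum_congr rfl this]; simp
  -- quadratic identity
  have hquad : ∑ k ∈ range 25, (lv k).e *
      ((∑ i ∈ range 25, lamE k i * x i) * (∑ i ∈ range 25, lamE k i * x i)) = DD * 50 := by
    have h1 : ∀ k ∈ range 25, (lv k).e *
        ((∑ i ∈ range 25, lamE k i * x i) * (∑ i ∈ range 25, lamE k i * x i))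
        = ∑ i ∈ range 25, ∑ j ∈ range 25, ((lv k).e * (lamE k i * lamE k j)) * (x i * x j) := by
      intro k _
      rw [Finset.sum_mul_sum, Finset.mul_sum]
      apply Finset.sum_congr rfl
      intro i _
      rw [Finset.mul_sum]
      exact Finset.sum_congr rfl fun j _ => by ring
    rw [Finset.sum_congr rfl h1]
    have h2 : ∑ k ∈ range 25, ∑ i ∈ range 25, ∑ j ∈ range 25,
        ((lv k).e * (lamE k i * lamE k j)) * (x i * x j)
        = ∑ i ∈ range 25, ∑ j ∈ range 25, (∑ k ∈ range 25, (lv k).e * (lamE k i * lamE k j))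
          * (x i * x j) := by
      rw [Finset.sum_comm]
      apply Finset.sum_congr rfl
      intro i _
      rw [Finset.sum_comm]
      apply Finset.sum_congr rfl
      intro j _
      rw [Finset.sum_mul]
    rw [h2]
    have h3 : ∑ i ∈ range 25, ∑ j ∈ range 25, (∑ k ∈ range 25, (lv k).e * (lamE k i * lamE k j))
          * (x i * x j)
        = ∑ i ∈ range 25, ∑ j ∈ range 25, (DD * ∑ t ∈ range 50, bE i t * bE j t)
          * (x i * x j) := by
      apply Finset.sum_congr rfl
      intro i hi
      apply Finset.sum_congr rfl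
      intro j hj
      rw [G_all i (Finset.mem_range.mp hi) j (Finset.mem_range.mp hj)]
    rw [h3, ← hnorm]
    have h4 : ∀ s ∈ range 50, u s * u s
        = ∑ i ∈ range 25, ∑ j ∈ range 25, (bE i s * bE j s) * (x i * x j) := by
      intro s hs
      rw [← hBx s (Finset.mem_range.mp hs), Finset.sum_mul_sum]
      apply Finset.sum_congr rfl
      intro i _
      exact Finset.sum_congr rfl fun j _ => by ring
    rw [Finset.sum_congr rfl h4, Finset.mul_sum]
    have h5 : ∀ i ∈ range 25, ∀ j ∈ range 25, (DD * ∑ t ∈ range 50, bE i t * bE j t) * (x i * x j)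
        = ∑ t ∈ range 50, DD * ((bE i t * bE j t) * (x i * x j)) := by
      intro i _ j _
      rw [Finset.mul_sum, Finset.sum_mul]
      exact Finset.sum_congr rfl fun t _ => by ring
    rw [Finset.sum_congr rfl fun i hi => Finset.sum_congr rfl fun j hj => h5 i hi j hj]
    have h6 : ∀ s ∈ range 50, DD * ∑ i ∈ range 25, ∑ j ∈ range 25,
          (bE i s * bE j s) * (x i * x j)
        = ∑ i ∈ range 25, ∑ j ∈ range 25, DD * ((bE i s * bE j s) * (x i * x j)) := by
      intro s _
      rw [Finset.mul_sum]
      apply Finset.sum_congr rfl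
      intro i _
      rw [Finset.mul_sum]
    rw [Finset.sum_congr rfl h6]
    calc ∑ i ∈ range 25, ∑ j ∈ range 25, ∑ t ∈ range 50, DD * ((bE i t * bE j t) * (x i * x j))
        = ∑ i ∈ range 25, ∑ t ∈ range 50, ∑ j ∈ range 25,
            DD * ((bE i t * bE j t) * (x i * x j)) := by
          apply Finset.sum_congr rfl
          intro i _
          rw [Finset.sum_comm]
      _ = _ := by rw [Finset.sum_comm]
  -- enumeration
  have hpar : ∀ i < 25, (x i - (lv i).r) % 2 = 0 := by
    intro i hi
    have h1 := par_all i hi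
    have h2 : (x i - ∑ j ∈ range 50, rE i j) % 2 = 0 := by
      rw [hx, ← Finset.sum_sub_distrib]
      apply Int.emod_eq_zero_of_dvd
      apply Finset.dvd_sum
      intro j hj
      rcases hu j (Finset.mem_range.mp hj) with h | h <;> rw [h]
      · simp
      · exact ⟨-rE i j, by ring⟩
    omega
  have hsound := enum_sound levels [] (50 * DD) (by
    intro l hl
    rw [levels_eq, List.mem_map] at hl
    obtain ⟨k, hk, rfl⟩ := hl
    rw [List.mem_reverse, List.mem_range] at hk
    obtain ⟨h1, h2, h3, -⟩ := lv_all k hk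
    exact ⟨h1, h2, h3⟩) enum_true ((List.range 25).reverse.map x) (by
      rw [levels_eq, List.forall₂_map_left_iff, List.forall₂_map_right_iff]
      rw [List.forall₂_same]
      intro k hk
      rw [List.mem_reverse, List.mem_range] at hk
      exact hpar k hk)
  have htot := total_eq 25 lv x 25 le_rfl
  simp only [Nat.sub_self, List.range'_zero, List.map_nil] at htot
  rw [levels_eq, htot] at hsound
  have hfin : ∑ j ∈ range 25, (lv j).e *
        (((lv j).d * x j + dot (lv j).lam ((List.range' (j + 1) (25 - (j + 1))).map x)) *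
         ((lv j).d * x j + dot (lv j).lam ((List.range' (j + 1) (25 - (j + 1))).map x)))
      = DD * 50 := by
    rw [← hquad]
    apply Finset.sum_congr rfl
    intro k hk
    rw [form_eq x k (Finset.mem_range.mp hk)]
  rw [hfin] at hsound
  linarith

end K1H48.SC
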